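import Pool.Agent.H.MP_aeb38e_lc.SJ.Fun
import Pool.Agent.H.MP_aeb38e_lc.Acc
import Pool.Agent.H.MP_aeb38e_lc.PInst

/-!
The algorithm.
-/

namespace Pool.Agent.H.JS

open Turing Pool.Agent.H.MP_5be563_lc.PT

theorem nextA_le (I : Shop) (N n : ℕ) (ds : List ℕ) : nextA I N n ds ≤ N := by
  unfold nextA
  rcases h : ((List.range N).find? fun d =>
    decide (phiA I N n (ds ++ [d]) ≤ phiA I N n ds + incA I N n ds.length)) with _ | d
  · exact Nat.zero_le _
  · have := List.mem_range.1 (List.mem_of_find?_eq_some h)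
    exact this.le

theorem iter_spec (I : Shop) (N n t : ℕ) :
    ((fun ds => ds ++ [nextA I N n ds])^[t] []).length = t ∧
      ∀ d ∈ (fun ds => ds ++ [nextA I N n ds])^[t] [], d ≤ N := by
  induction t with
  | zero => exact ⟨rfl, by simp⟩
  | succ t ih =>
    rw [Function.iterate_succ_apply']
    refine ⟨by simp [ih.1], fun d hd => ?_⟩
    rw [List.mem_append, List.mem_singleton] at hd
    rcases hd with hd | hd
    · exact ih.2 d hd
    · rw [hd]
      exact nextA_le _ _ _ _

/-- The schedule found by the algorithm. -/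
def algA (x : Shop × ℕ) : List (List (List Bool)) :=
  (List.range x.1.2.length).map fun j => (List.range (x.1.2.getD j []).length).map fun i =>
    Acc.bin (scA x.1 (delA x.1 (2 * x.2 * nA x.1) (nA x.1)) j i)

section
variable {α : Type} [Enc α]

@[fun_prop]
theorem Poly.nA {I : α → Shop} (hI : Poly I) : Poly (fun a => nA (I a)) := by
  unfold JS.nA
  fun_prop

@[fun_prop]
theorem Poly.delA {I : α → Shop} {N n : α → ℕ} (hI : Poly I) (hN : Poly N)
    (hn : Poly n) : Poly (fun a => delA (I a) (N a) (n a)) := by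
  unfold JS.delA
  have h1 : Poly (fun a => (I a).2.length) := by fun_prop
  refine Poly.iterate (f := fun a ds => ds ++ [JS.nextA (I a) (N a) (n a) ds])
    (s := fun _ => ([] : List ℕ)) (n := fun a => (I a).2.length)
    (B := fun a => sz ((I a).2.length) * (sz (N a) + 1) + 1) (by fun_prop) (by fun_prop) h1
    ((h1.sz_le.mul (hN.sz_le.add (PBdd.const 1))).add (PBdd.const 1)) fun a k hk => ?_
  obtain ⟨h2, h3⟩ := iter_spec (I a) (N a) (n a) k
  refine (sz_le_of_forall _ (sz (N a)) fun d hd => ?_).trans ?_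
  · have := h3 d hd
    rw [sz_nat, sz_nat]
    omega
  · rw [h2]
    have h4 : k ≤ sz ((I a).2.length) := by
      rw [sz_nat]
      omega
    exact Nat.add_le_add_right (Nat.mul_le_mul_right _ h4) _

@[fun_prop]
theorem Poly.lnA {I : α → Shop} {ds : α → List ℕ} {w : α → ℕ} (hI : Poly I) (hd : Poly ds)
    (hw : Poly w) : Poly (fun a => lnA (I a) (ds a) (w a)) := by
  unfold JS.lnA
  fun_prop

@[fun_prop]
theorem Poly.stA {I : α → Shop} {ds : α → List ℕ} {w : α → ℕ} (hI : Poly I) (hd : Poly ds)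
    (hw : Poly w) : Poly (fun a => stA (I a) (ds a) (w a)) := by
  unfold JS.stA
  fun_prop

@[fun_prop]
theorem Poly.scA {I : α → Shop} {ds : α → List ℕ} {j i : α → ℕ} (hI : Poly I) (hd : Poly ds)
    (hj : Poly j) (hi : Poly i) : Poly (fun a => scA (I a) (ds a) (j a) (i a)) := by
  unfold JS.scA
  fun_prop

end

theorem poly_algA : Poly algA := by
  have h1 : Poly (fun x : Shop × ℕ => delA x.1 (2 * x.2 * nA x.1) (nA x.1)) := by fun_prop
  have h2 : Poly (fun y : (Shop × ℕ) × List ℕ => (List.range y.1.1.2.length).map fun j =>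
      (List.range (y.1.1.2.getD j []).length).map fun i => Acc.bin (scA y.1.1 y.2 j i)) := by
    fun_prop
  exact Poly.comp (f := fun y : (Shop × ℕ) × List ℕ => (List.range y.1.1.2.length).map fun j =>
      (List.range (y.1.1.2.getD j []).length).map fun i => Acc.bin (scA y.1.1 y.2 j i))
    (g := fun x : Shop × ℕ => (x, delA x.1 (2 * x.2 * nA x.1) (nA x.1))) h2
    (Poly.pair Poly.id h1)

/-- The machine. -/
theorem exists_mach : ∃ (tm : FinTM2) (iA : tm.Γ tm.k₀ ≃ Bool) (oA : tm.Γ tm.k₁ ≃ Bool)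
    (p : Polynomial ℕ), ∀ x : Shop × ℕ, Outputs tm iA oA (codePair codeShop codeNat x)
      (codeSched (algA x)) (p.eval (codePair codeShop codeNat x).length) := by
  obtain ⟨M⟩ := poly_algA.tm2
  refine ⟨M.tm, M.inputAlphabet, M.outputAlphabet, M.time, fun x => ?_⟩
  rw [← bits_in1, ← bits_sched]
  exact ⟨M.outputsFun x⟩

end Pool.Agent.H.JS
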