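import Pool.Agent.H.MP_aeb38e_lc.SJ.Sch

/-!
The makespan of the schedule, and the lower bound.
-/

namespace Pool.Agent.H.JS

open Finset

theorem jobc_length {I : Shop} {n : ℕ} (hn : ∀ job ∈ I.2, job.length ≤ n) (j : ℕ) :
    (jobc I j).length ≤ n := by
  unfold jobc
  rw [List.getD_eq_getElem?_getD]
  rcases h : I.2[j]? with _ | job
  · simp
  · exact hn job (List.mem_of_getElem? h)

theorem jobc_time {I : Shop} {p : ℕ} (hp : ∀ job ∈ I.2, ∀ o ∈ job, o.2 ≤ p) (j : ℕ) :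
    ∀ o ∈ jobc I j, o.2 ≤ p := by
  unfold jobc
  rw [List.getD_eq_getElem?_getD]
  rcases h : I.2[j]? with _ | job
  · simp
  · exact hp job (List.mem_of_getElem? h)

theorem ldc_le {I : Shop} {n : ℕ} (hn : ∀ job ∈ I.2, job.length ≤ n) (d : ℕ → ℕ) (u w : ℕ) :
    ldc I d u w ≤ load I u := by
  rw [← load_eq hn]
  refine sum_le_sum fun j _ => ?_
  unfold winc
  split_ifs
  · rcases lt_or_ge (w - d j) n with h | h
    · exact single_le_sum (f := fun i => opc (jobc I j) u i) (fun _ _ => Nat.zero_le _)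
        (mem_range.2 h)
    · rw [opc_zero ((jobc_length hn j).trans h)]
      exact Nat.zero_le _
  · exact Nat.zero_le _

/-- The load of a window is near its mean. -/
theorem ldc_dev {I : Shop} {n C : ℕ} (hn : ∀ job ∈ I.2, job.length ≤ n)
    (hC : ∀ u < I.1, load I u ≤ C) (N : ℕ) (d : ℕ → ℕ) {u : ℕ} (hu : u < I.1) (w : ℕ) :
    (N : ℤ) * ldc I d u w ≤ devc N (jobc I) d I.2.length u w + C := by
  have h1 : ((∑ j ∈ range I.2.length, meanc N (jobc I j) u w : ℕ) : ℤ) ≤ C := by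
    have : ∑ j ∈ range I.2.length, meanc N (jobc I j) u w ≤ C := by
      refine le_trans ?_ (hC u hu)
      rw [← load_eq hn]
      exact sum_le_sum fun j _ => meanc_le (jobc_length hn j) N u w
    exact_mod_cast this
  have h2 : devc N (jobc I) d I.2.length u w = (N : ℤ) * ldc I d u w -
      ((∑ j ∈ range I.2.length, meanc N (jobc I j) u w : ℕ) : ℤ) := by
    unfold devc ldc
    rw [sum_sub_distrib, ← mul_sum]
    push_cast
    rfl
  rw [h2]
  linarith

theorem lenc_cases (I : Shop) (d : ℕ → ℕ) (w : ℕ) :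
    lenc I d w = 0 ∨ ∃ u < I.1, lenc I d w = ldc I d u w := by
  unfold lenc
  rcases Nat.eq_zero_or_pos I.1 with h | h
  · left
    rw [h]
    rfl
  · right
    obtain ⟨u, hu, h1⟩ := exists_mem_eq_sup (range I.1) ⟨0, mem_range.2 h⟩
      (fun u => ldc I d u w)
    exact ⟨u, mem_range.1 hu, h1⟩

/-- The length of a window. -/
theorem lenc_le {I : Shop} {n C : ℕ} (hn : ∀ job ∈ I.2, job.length ≤ n)
    (hC : ∀ u < I.1, load I u ≤ C) (N e : ℕ) (d : ℕ → ℕ) (w : ℕ) :
    6 * (e : ℤ) * C * (N * lenc I d w) ≤ (6 * e + 1) * (C : ℤ) ^ 2 +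
      9 * (e : ℤ) ^ 2 * ∑ u ∈ range I.1, devc N (jobc I) d I.2.length u w ^ 2 := by
  have h0 : 0 ≤ ∑ u ∈ range I.1, devc N (jobc I) d I.2.length u w ^ 2 :=
    sum_nonneg fun _ _ => sq_nonneg _
  rcases lenc_cases I d w with h | ⟨u, hu, h⟩
  · rw [h]
    have : 0 ≤ 9 * (e : ℤ) ^ 2 * ∑ u ∈ range I.1, devc N (jobc I) d I.2.length u w ^ 2 := by
      positivity
    have h2 : 0 ≤ (6 * e + 1) * (C : ℤ) ^ 2 := by positivity
    simp only [Nat.cast_zero, mul_zero]
    linarith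
  · rw [h]
    have h1 := ldc_dev hn hC N d hu w
    set x := devc N (jobc I) d I.2.length u w with hx
    have h2 : x ^ 2 ≤ ∑ u ∈ range I.1, devc N (jobc I) d I.2.length u w ^ 2 :=
      single_le_sum (f := fun u => devc N (jobc I) d I.2.length u w ^ 2)
        (fun _ _ => sq_nonneg _) (mem_range.2 hu)
    have h3 : 6 * (e : ℤ) * C * (N * ldc I d u w) ≤ 6 * (e : ℤ) * C * (x + C) :=
      mul_le_mul_of_nonneg_left h1 (by positivity)
    have h4 : 9 * (e : ℤ) ^ 2 * x ^ 2 ≤ 9 * (e : ℤ) ^ 2 *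
        ∑ u ∈ range I.1, devc N (jobc I) d I.2.length u w ^ 2 :=
      mul_le_mul_of_nonneg_left h2 (by positivity)
    nlinarith [sq_nonneg (3 * (e : ℤ) * x - C)]

/-- The upper bound for the makespan of the schedule. -/
theorem startc_le {I : Shop} {n p C e : ℕ} (he : 0 < e) (hn : ∀ job ∈ I.2, job.length ≤ n)
    (hC : ∀ u < I.1, load I u ≤ C) (hn0 : 0 < n) (d : ℕ → ℕ)
    (hd : ∑ x ∈ range I.1 ×ˢ range (2 * e * n + n),
      devc (2 * e * n) (jobc I) d I.2.length x.1 x.2 ^ 2 ≤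
        ((2 * e * n : ℕ) : ℤ) ^ 2 * (p * (I.1 * C))) :
    4 * e * startc I d (2 * e * n + n) ≤ (4 * e + 3) * C + 12 * e ^ 3 * (I.1 * n * p) := by
  rcases Nat.eq_zero_or_pos C with h0 | h0
  · have h1 : startc I d (2 * e * n + n) = 0 := by
      refine sum_eq_zero fun w _ => ?_
      rcases lenc_cases I d w with h | ⟨u, hu, h⟩
      · exact h
      · have := (ldc_le hn d u w).trans (hC u hu)
        omega
    rw [h1]
    exact Nat.zero_le _
  set N := 2 * e * n with hN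
  have h1 : ∑ w ∈ range (N + n), 6 * (e : ℤ) * C * (N * lenc I d w) ≤
      ∑ w ∈ range (N + n), ((6 * e + 1) * (C : ℤ) ^ 2 +
        9 * (e : ℤ) ^ 2 * ∑ u ∈ range I.1, devc N (jobc I) d I.2.length u w ^ 2) :=
    sum_le_sum fun w _ => lenc_le hn hC N e d w
  rw [sum_add_distrib, sum_const, card_range, nsmul_eq_mul, ← mul_sum, ← mul_sum, ← mul_sum,
    sum_comm, ← sum_product'] at h1
  have h2 : (startc I d (N + n) : ℤ) = ∑ w ∈ range (N + n), (lenc I d w : ℤ) := by
    unfold startc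
    push_cast
    rfl
  rw [← h2] at h1
  have h3 : 9 * (e : ℤ) ^ 2 * ∑ x ∈ range I.1 ×ˢ range (N + n),
      devc N (jobc I) d I.2.length x.1 x.2 ^ 2 ≤
        9 * (e : ℤ) ^ 2 * ((N : ℤ) ^ 2 * (p * (I.1 * C))) :=
    mul_le_mul_of_nonneg_left hd (by positivity)
  have h4 := h1.trans (add_le_add_right h3 _)
  have hNe : (N : ℤ) = 2 * e * n := by rw [hN]; push_cast; ring
  have hNn : ((N + n : ℕ) : ℤ) = (2 * e + 1) * n := by push_cast; rw [hNe]; ring
  rw [hNe, hNn] at h4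
  set S : ℤ := (startc I d (N + n) : ℤ) with hS
  have hn1 : (0 : ℤ) < n := by exact_mod_cast hn0
  have hC1 : (0 : ℤ) < C := by exact_mod_cast h0
  have he1 : (1 : ℤ) ≤ e := by exact_mod_cast he
  have h5 : ((n : ℤ) * C) * (12 * (e : ℤ) ^ 2 * S) ≤ ((n : ℤ) * C) *
      ((2 * e + 1) * (6 * e + 1) * C + 36 * (e : ℤ) ^ 4 * (I.1 * n * p)) := by
    calc ((n : ℤ) * C) * (12 * (e : ℤ) ^ 2 * S) = 6 * (e : ℤ) * C * (2 * e * n * S) := by ring
      _ ≤ (2 * e + 1) * n * ((6 * e + 1) * (C : ℤ) ^ 2) +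
          9 * (e : ℤ) ^ 2 * ((2 * e * n) ^ 2 * (p * (I.1 * C))) := h4
      _ = _ := by ring
  have h6 := le_of_mul_le_mul_left h5 (mul_pos hn1 hC1)
  have h9 : (3 * (e : ℤ)) * (4 * e * S) ≤
      (3 * (e : ℤ)) * ((4 * e + 3) * C + 12 * (e : ℤ) ^ 3 * (I.1 * n * p)) := by
    nlinarith
  have h10 := le_of_mul_le_mul_left h9 (by positivity)
  rw [hS] at h10
  exact_mod_cast h10

/-- The lower bound. -/
theorem load_le {I : Shop} {st : ℕ → ℕ → ℕ} {K : ℕ} (hf : Feasible I st) (hK : EndsBy I st K)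
    (u : ℕ) : load I u ≤ K := by
  obtain ⟨n, hn⟩ : ∃ n, ∀ job ∈ I.2, job.length ≤ n := by
    refine ⟨(I.2.map List.length).sum, fun job hj => ?_⟩
    exact List.single_le_sum (fun _ _ => Nat.zero_le _) _ (List.mem_map_of_mem hj)
  rw [← load_eq hn]
  set F : Finset ((_ : ℕ × ℕ) × ℕ) := (range I.2.length ×ˢ range n).sigma
    (fun x => range (opc (jobc I x.1) u x.2)) with hF
  have h1 : F.card = ∑ j ∈ range I.2.length, ∑ i ∈ range n, opc (jobc I j) u i := by
    rw [hF, card_sigma, sum_product]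
    simp only [card_range]
  rw [← h1, ← card_range K]
  have hop : ∀ j i t, t < opc (jobc I j) u i → IsOp I j i u (opc (jobc I j) u i) := by
    intro j i t ht
    rw [isOp_jobc]
    rcases h : (jobc I j)[i]? with _ | o
    · unfold opc at ht
      rw [h] at ht
      simp at ht
    · by_cases h2 : o.1 = u
      · have h3 : (jobc I j)[i]? = some (u, o.2) := by rw [h, ← h2]
        rw [opc_eq h3, ← h2]
      · unfold opc at ht
        rw [h] at ht
        simp [h2] at ht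
  refine card_le_card_of_injOn (fun y => st y.1.1 y.1.2 + y.2) ?_ ?_
  · rintro ⟨⟨j, i⟩, t⟩ hy
    rw [hF, mem_coe, mem_sigma] at hy
    have ht := mem_range.1 hy.2
    have h2 := hK _ _ _ _ (hop j i t ht)
    simp only [mem_coe, mem_range]
    dsimp only at ht
    omega
  · rintro ⟨⟨j, i⟩, t⟩ hy ⟨⟨j', i'⟩, t'⟩ hy' heq
    rw [hF, mem_coe, mem_sigma] at hy hy'
    have ht := mem_range.1 hy.2
    have ht' := mem_range.1 hy'.2
    dsimp only at ht ht' heq
    by_cases hne : (j, i) = (j', i')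
    · obtain ⟨rfl, rfl⟩ := Prod.mk.inj hne
      have : t = t' := by omega
      subst this
      rfl
    · have := hf.2 _ _ _ _ _ _ _ (hop j i t ht) (hop j' i' t' ht') hne
      omega

theorem load_le_OPT (I : Shop) (h : ∃ K st, Feasible I st ∧ EndsBy I st K) (u : ℕ) :
    load I u ≤ OPT I := by
  have hne : {K | ∃ st, Feasible I st ∧ EndsBy I st K}.Nonempty := h
  obtain ⟨st, h1, h2⟩ := Nat.sInf_mem hne
  exact load_le h1 h2 u

end Pool.Agent.H.JS
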