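import Pool.Agent.H.MP_aeb38e_lc.SJ.Alg

/-!
Correctness of the algorithm.
-/

namespace Pool.Agent.H.JS

open Finset

theorem opA_eq (job : List (ℕ × ℕ)) (u i : ℕ) : opA job u i = opc job u i := by
  unfold opA opc
  rw [List.getD_eq_getElem?_getD]
  rcases h : job[i]? with _ | o
  · simp
  · by_cases h1 : o.1 = u
    · simp [h1]
    · simp [h1]

theorem winA_eq (job : List (ℕ × ℕ)) (d u w : ℕ) : winA job d u w = winc job d u w := by
  unfold winA winc
  by_cases h : d ≤ w
  · simp [h, opA_eq]
  · simp [h]

theorem ldA_eq (I : Shop) (ds : List ℕ) (k u w : ℕ) :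
    ldA I ds k u w = ∑ j ∈ range k, winc (jobc I j) (ds.getD j 0) u w := by
  unfold ldA
  rw [rsum_eq]
  exact sum_congr rfl fun j _ => winA_eq _ _ _ _

theorem mnA_eq (I : Shop) (N k u w : ℕ) :
    mnA I N k u w = ∑ j ∈ range k, meanc N (jobc I j) u w := by
  unfold mnA
  rw [rsum_eq]
  refine sum_congr rfl fun j _ => ?_
  rw [rsum_eq]
  exact sum_congr rfl fun d _ => winA_eq _ _ _ _

theorem sqd_eq (a b : ℕ) : ((sqd a b : ℕ) : ℤ) = ((a : ℤ) - b) ^ 2 := by
  unfold sqd
  rcases le_total a b with h | h
  · rw [Nat.sub_eq_zero_of_le h, zero_mul, zero_add]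
    push_cast [Nat.cast_sub h]
    ring
  · rw [Nat.sub_eq_zero_of_le h, zero_mul, add_zero]
    push_cast [Nat.cast_sub h]
    ring

theorem phiA_eq (I : Shop) (N n : ℕ) (ds : List ℕ) : ((phiA I N n ds : ℕ) : ℤ) =
    ∑ x ∈ range I.1 ×ˢ range (N + n),
      devc N (jobc I) (fun j => ds.getD j 0) ds.length x.1 x.2 ^ 2 := by
  unfold phiA
  rw [rsum_eq, sum_product]
  push_cast
  refine sum_congr rfl fun u _ => ?_
  rw [rsum_eq]
  push_cast
  refine sum_congr rfl fun w _ => ?_
  rw [sqd_eq, ldA_eq, mnA_eq]
  unfold devc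
  rw [sum_sub_distrib, ← mul_sum]
  push_cast
  rfl

theorem incA_eq (I : Shop) (N n j : ℕ) : ((incA I N n j : ℕ) : ℤ) =
    (N : ℤ) ^ 2 * ∑ u ∈ range I.1, ∑ i ∈ range n, (opc (jobc I j) u i : ℤ) ^ 2 := by
  unfold incA
  rw [rsum_eq]
  push_cast
  rw [sq]
  congr 1
  refine sum_congr rfl fun u _ => ?_
  rw [rsum_eq]
  push_cast
  refine sum_congr rfl fun i _ => ?_
  rw [opA_eq, sq]
  rfl

theorem getD_append_left (ds : List ℕ) (d j : ℕ) (h : j < ds.length) :
    (ds ++ [d]).getD j 0 = ds.getD j 0 := by
  rw [List.getD_eq_getElem?_getD, List.getD_eq_getElem?_getD, List.getElem?_append_left h]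

theorem getD_append_last (ds : List ℕ) (d : ℕ) : (ds ++ [d]).getD ds.length 0 = d := by
  rw [List.getD_eq_getElem?_getD, List.getElem?_append_right le_rfl]
  simp

/-- A good next delay exists. -/
theorem exists_next {I : Shop} {N n : ℕ} (hN : 0 < N) (hn : ∀ job ∈ I.2, job.length ≤ n)
    (ds : List ℕ) :
    ∃ d < N, phiA I N n (ds ++ [d]) ≤ phiA I N n ds + incA I N n ds.length := by
  obtain ⟨d0, hd0, h0⟩ := averaging (range I.1 ×ˢ range (N + n)) N hN
    (fun x => devc N (jobc I) (fun j => ds.getD j 0) ds.length x.1 x.2)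
    (fun d x => (winc (jobc I ds.length) d x.1 x.2 : ℤ))
    (∑ u ∈ range I.1, ∑ i ∈ range n, (opc (jobc I ds.length) u i : ℤ) ^ 2)
    (by
      intro d' hd'
      rw [sum_product]
      refine sum_le_sum fun u _ => ?_
      exact_mod_cast sum_winc_sq (jobc_length hn ds.length) N d' u hd')
  refine ⟨d0, hd0, ?_⟩
  have h1 : ((phiA I N n (ds ++ [d0]) : ℕ) : ℤ) ≤
      ((phiA I N n ds + incA I N n ds.length : ℕ) : ℤ) := by
    rw [Nat.cast_add, phiA_eq, phiA_eq, incA_eq]
    refine le_trans (le_of_eq (sum_congr rfl fun x _ => ?_)) h0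
    congr 1
    unfold devc
    rw [List.length_append, List.length_singleton, sum_range_succ]
    congr 1
    · refine sum_congr rfl fun j hj => ?_
      dsimp only
      rw [getD_append_left ds d0 j (mem_range.1 hj)]
    · dsimp only
      rw [getD_append_last]
      unfold meanc
      push_cast
      rfl
  exact_mod_cast h1

theorem nextA_spec {I : Shop} {N n : ℕ} (hN : 0 < N) (hn : ∀ job ∈ I.2, job.length ≤ n)
    (ds : List ℕ) : nextA I N n ds < N ∧
      phiA I N n (ds ++ [nextA I N n ds]) ≤ phiA I N n ds + incA I N n ds.length := by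
  unfold nextA
  rcases h : ((List.range N).find? fun d =>
    decide (phiA I N n (ds ++ [d]) ≤ phiA I N n ds + incA I N n ds.length)) with _ | d
  · exfalso
    obtain ⟨d, hd, h1⟩ := exists_next hN hn ds
    have h2 := (List.find?_eq_none.1 h) d (List.mem_range.2 hd)
    exact h2 (by simpa using h1)
  · refine ⟨List.mem_range.1 (List.mem_of_find?_eq_some h), ?_⟩
    have h1 := List.find?_some h
    simpa using h1

theorem iterA_spec {I : Shop} {N n : ℕ} (hN : 0 < N) (hn : ∀ job ∈ I.2, job.length ≤ n)
    (t : ℕ) : (∀ d ∈ (fun ds => ds ++ [nextA I N n ds])^[t] [], d < N) ∧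
      phiA I N n ((fun ds => ds ++ [nextA I N n ds])^[t] []) ≤ ∑ j ∈ range t, incA I N n j := by
  induction t with
  | zero =>
    refine ⟨by simp, ?_⟩
    have h1 : ((phiA I N n [] : ℕ) : ℤ) = 0 := by
      rw [phiA_eq]
      refine sum_eq_zero fun x _ => ?_
      simp [devc]
    have h2 : phiA I N n [] = 0 := by exact_mod_cast h1
    show phiA I N n [] ≤ _
    rw [h2]
    exact Nat.zero_le _
  | succ t ih =>
    rw [Function.iterate_succ_apply']
    set ds := (fun ds => ds ++ [nextA I N n ds])^[t] [] with hds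
    have hl : ds.length = t := (iter_spec I N n t).1
    obtain ⟨h1, h2⟩ := nextA_spec hN hn ds
    refine ⟨fun d hd => ?_, ?_⟩
    · rw [List.mem_append, List.mem_singleton] at hd
      rcases hd with hd | hd
      · exact ih.1 d hd
      · rw [hd]
        exact h1
    · rw [sum_range_succ]
      refine h2.trans ?_
      rw [hl]
      exact Nat.add_le_add_right ih.2 _

theorem lmax_spec (l : List ℕ) : (∀ x ∈ l, x ≤ lmax l) ∧ (lmax l = 0 ∨ lmax l ∈ l) := by
  have hs : (l.flatMap fun i => List.replicate i ()).length = l.sum := by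
    induction l with
    | nil => rfl
    | cons a l ih => simp
  unfold lmax
  rw [hs]
  rcases h : ((List.range (l.sum + 1)).find? fun t => l.all fun x => decide (x ≤ t)) with _ | t
  · exfalso
    have h2 := (List.find?_eq_none.1 h) l.sum (List.mem_range.2 (by omega))
    apply h2
    rw [List.all_eq_true]
    intro x hx
    exact decide_eq_true (List.single_le_sum (fun _ _ => Nat.zero_le _) x hx)
  · have h1 := List.find?_some h
    rw [List.all_eq_true] at h1
    refine ⟨fun x hx => of_decide_eq_true (h1 x hx), ?_⟩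
    show t = 0 ∨ t ∈ l
    rcases Nat.eq_zero_or_pos t with h0 | h0
    · exact Or.inl h0
    · right
      by_contra hc
      have h3 : ∀ x ∈ l, x ≤ t - 1 := by
        intro x hx
        have h4 : x ≤ t := of_decide_eq_true (h1 x hx)
        have h5 : x ≠ t := fun h5 => hc (h5 ▸ hx)
        omega
      have h6 : (l.all fun x => decide (x ≤ t - 1)) = true := by
        rw [List.all_eq_true]
        intro x hx
        exact decide_eq_true (h3 x hx)
      obtain ⟨h7, as, bs, h8, h9⟩ := List.find?_eq_some_iff_append.1 h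
      have hlen : as.length = t := by
        have h10 : (List.range (l.sum + 1))[as.length]? = some t := by
          rw [h8]
          simp
        rw [List.getElem?_eq_some_iff] at h10
        obtain ⟨h11, h12⟩ := h10
        rw [List.getElem_range] at h12
        exact h12
      have hmem : t - 1 ∈ as := by
        have h10 : as[t - 1]? = some (t - 1) := by
          have h11 : (List.range (l.sum + 1))[t - 1]? = as[t - 1]? := by
            rw [h8, List.getElem?_append_left (by omega)]
          rw [← h11, List.getElem?_range]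
          have h12 := List.mem_range.1 (List.mem_of_find?_eq_some h)
          omega
        exact List.mem_of_getElem? h10
      have h13 := h9 _ hmem
      rw [h6] at h13
      simp at h13

theorem lnA_eq (I : Shop) (ds : List ℕ) (w : ℕ) :
    lnA I ds w = lenc I (fun j => ds.getD j 0) w := by
  unfold lnA
  obtain ⟨h1, h2⟩ := lmax_spec ((List.range I.1).map fun u => ldA I ds I.2.length u w)
  apply le_antisymm
  · rcases h2 with h2 | h2
    · rw [h2]
      exact Nat.zero_le _
    · obtain ⟨u, hu, h3⟩ := List.mem_map.1 h2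
      rw [← h3, ldA_eq]
      exact le_sup (f := fun u => ldc I (fun j => ds.getD j 0) u w)
        (mem_range.2 (List.mem_range.1 hu))
  · refine Finset.sup_le fun u hu => ?_
    refine le_trans (le_of_eq ?_) (h1 _ (List.mem_map_of_mem (List.mem_range.2 (mem_range.1 hu))))
    rw [ldA_eq]
    rfl

theorem stA_eq (I : Shop) (ds : List ℕ) (w : ℕ) :
    stA I ds w = startc I (fun j => ds.getD j 0) w := by
  unfold stA startc
  rw [rsum_eq]
  exact sum_congr rfl fun w _ => lnA_eq I ds w

theorem scA_eq (I : Shop) (ds : List ℕ) (j i : ℕ) :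
    scA I ds j i = schc I (fun j => ds.getD j 0) j i := by
  unfold scA schc
  rw [stA_eq, rsum_eq]
  congr 1
  refine sum_congr rfl fun j' _ => ?_
  rw [winA_eq]
  have h1 : ((I.2.getD j []).getD i (0, 0)).1 = ((jobc I j)[i]?.map Prod.fst).getD 0 := by
    unfold jobc
    rw [List.getD_eq_getElem?_getD (l := I.2.getD j [])]
    rcases (I.2.getD j [])[i]? with _ | o <;> rfl
  rw [h1]
  rfl

theorem startOf_algA (x : Shop × ℕ) {j i u p : ℕ} (h : IsOp x.1 j i u p) :
    startOf (algA x) j i =
      schc x.1 (fun j => (delA x.1 (2 * x.2 * nA x.1) (nA x.1)).getD j 0) j i := by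
  obtain ⟨h1, h2, -⟩ := (Acc.isOp_iff _ _ _ _ _).1 h
  unfold startOf algA
  rw [List.getD_eq_getElem?_getD, List.getD_eq_getElem?_getD, List.getElem?_map,
    List.getElem?_range h1]
  simp only [Option.map_some, Option.getD_some]
  rw [List.getElem?_map, List.getElem?_range h2]
  simp only [Option.map_some, Option.getD_some]
  rw [Acc.val_eq, Acc.bval_bin, scA_eq]

end Pool.Agent.H.JS
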