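import Pool.Agent.H.MP_aeb38e_lc.SJ.Bound
import Pool.Agent.H.MP_5be563_lc.PT.Main
import Pool.Agent.H.MP_5be563_lc.PT.Arith
import Pool.Agent.H.MP_5be563_lc.PT.Tree

/-!
The functions computed by the algorithm.
-/

namespace Pool.Agent.H.JS

open Finset Pool.Agent.H.MP_5be563_lc.PT

/-- The sum of `f 0, ..., f (n - 1)`. -/
def rsum (n : ℕ) (f : ℕ → ℕ) : ℕ := ((List.range n).flatMap fun i => List.replicate (f i) ()).length

theorem rsum_eq (n : ℕ) (f : ℕ → ℕ) : rsum n f = ∑ i ∈ range n, f i := by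
  unfold rsum
  induction n with
  | zero => rfl
  | succ n ih =>
    rw [List.range_succ, List.flatMap_append, List.length_append, ih, sum_range_succ]
    simp

/-- The maximum of a list. -/
def lmax (l : List ℕ) : ℕ :=
  ((List.range ((l.flatMap fun i => List.replicate i ()).length + 1)).find? fun t =>
    l.all fun x => decide (x ≤ t)).getD 0

/-- The time of the operation `i` on the machine `u`. -/
def opA (job : List (ℕ × ℕ)) (u i : ℕ) : ℕ :=
  bif decide ((job.getD i (0, 0)).1 = u) then (job.getD i (0, 0)).2 else 0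

/-- The time in the window. -/
def winA (job : List (ℕ × ℕ)) (d u w : ℕ) : ℕ := bif decide (d ≤ w) then opA job u (w - d) else 0

/-- The load of a window. -/
def ldA (I : Shop) (ds : List ℕ) (k u w : ℕ) : ℕ :=
  rsum k fun j => winA (I.2.getD j []) (ds.getD j 0) u w

/-- The mean. -/
def mnA (I : Shop) (N k u w : ℕ) : ℕ :=
  rsum k fun j => rsum N fun d => winA (I.2.getD j []) d u w

/-- The square of the difference. -/
def sqd (a b : ℕ) : ℕ := (a - b) * (a - b) + (b - a) * (b - a)

/-- The potential. -/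
def phiA (I : Shop) (N n : ℕ) (ds : List ℕ) : ℕ :=
  rsum I.1 fun u => rsum (N + n) fun w => sqd (N * ldA I ds ds.length u w) (mnA I N ds.length u w)

/-- The allowed increase. -/
def incA (I : Shop) (N n j : ℕ) : ℕ :=
  N * N * rsum I.1 fun u => rsum n fun i => opA (I.2.getD j []) u i * opA (I.2.getD j []) u i

/-- The next delay. -/
def nextA (I : Shop) (N n : ℕ) (ds : List ℕ) : ℕ :=
  ((List.range N).find? fun d =>
    decide (phiA I N n (ds ++ [d]) ≤ phiA I N n ds + incA I N n ds.length)).getD 0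

/-- The delays. -/
def delA (I : Shop) (N n : ℕ) : List ℕ := (fun ds => ds ++ [nextA I N n ds])^[I.2.length] []

/-- The length of a window. -/
def lnA (I : Shop) (ds : List ℕ) (w : ℕ) : ℕ :=
  lmax ((List.range I.1).map fun u => ldA I ds I.2.length u w)

/-- The start of a window. -/
def stA (I : Shop) (ds : List ℕ) (w : ℕ) : ℕ := rsum w fun w' => lnA I ds w'

/-- The start of an operation. -/
def scA (I : Shop) (ds : List ℕ) (j i : ℕ) : ℕ :=
  stA I ds (ds.getD j 0 + i) +
    rsum j fun j' => winA (I.2.getD j' []) (ds.getD j' 0) (((I.2.getD j []).getD i (0, 0)).1)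
      (ds.getD j 0 + i)

/-- The maximum number of operations of a job. -/
def nA (I : Shop) : ℕ := lmax (I.2.map fun job => job.length)

section
variable {α : Type} [Enc α]

@[fun_prop]
theorem Poly.rsum {n : α → ℕ} {f : α → ℕ → ℕ} (hn : Poly n)
    (hf : Poly (fun p : α × ℕ => f p.1 p.2)) : Poly (fun a => rsum (n a) (f a)) := by
  unfold JS.rsum
  fun_prop

@[fun_prop]
theorem Poly.lmax {l : α → List ℕ} (hl : Poly l) : Poly (fun a => lmax (l a)) := by
  unfold JS.lmax
  fun_prop

@[fun_prop]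
theorem Poly.opA {job : α → List (ℕ × ℕ)} {u i : α → ℕ} (hj : Poly job) (hu : Poly u)
    (hi : Poly i) : Poly (fun a => opA (job a) (u a) (i a)) := by
  unfold JS.opA
  fun_prop

@[fun_prop]
theorem Poly.winA {job : α → List (ℕ × ℕ)} {d u w : α → ℕ} (hj : Poly job) (hd : Poly d)
    (hu : Poly u) (hw : Poly w) : Poly (fun a => winA (job a) (d a) (u a) (w a)) := by
  unfold JS.winA
  fun_prop

@[fun_prop]
theorem Poly.ldA {I : α → Shop} {ds : α → List ℕ} {k u w : α → ℕ} (hI : Poly I) (hd : Poly ds)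
    (hk : Poly k) (hu : Poly u) (hw : Poly w) :
    Poly (fun a => ldA (I a) (ds a) (k a) (u a) (w a)) := by
  unfold JS.ldA
  fun_prop

@[fun_prop]
theorem Poly.mnA {I : α → Shop} {N k u w : α → ℕ} (hI : Poly I) (hN : Poly N)
    (hk : Poly k) (hu : Poly u) (hw : Poly w) :
    Poly (fun a => mnA (I a) (N a) (k a) (u a) (w a)) := by
  unfold JS.mnA
  fun_prop

@[fun_prop]
theorem Poly.sqd {a b : α → ℕ} (ha : Poly a) (hb : Poly b) : Poly (fun x => sqd (a x) (b x)) := by
  unfold JS.sqd
  fun_prop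

@[fun_prop]
theorem Poly.phiA {I : α → Shop} {N n : α → ℕ} {ds : α → List ℕ} (hI : Poly I) (hN : Poly N)
    (hn : Poly n) (hd : Poly ds) : Poly (fun a => phiA (I a) (N a) (n a) (ds a)) := by
  unfold JS.phiA
  fun_prop

@[fun_prop]
theorem Poly.incA {I : α → Shop} {N n j : α → ℕ} (hI : Poly I) (hN : Poly N)
    (hn : Poly n) (hj : Poly j) : Poly (fun a => incA (I a) (N a) (n a) (j a)) := by
  unfold JS.incA
  fun_prop

@[fun_prop]
theorem Poly.nextA {I : α → Shop} {N n : α → ℕ} {ds : α → List ℕ} (hI : Poly I) (hN : Poly N)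
    (hn : Poly n) (hd : Poly ds) : Poly (fun a => nextA (I a) (N a) (n a) (ds a)) := by
  unfold JS.nextA
  fun_prop

end

end Pool.Agent.H.JS
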