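import Pool.Agent.H.MP_aeb38e_lc.SJ.Cor

/-!
The main theorem on short jobs.
-/

namespace Pool.Agent.H.JS

open Finset Turing

/-- The largest load of a machine. -/
def maxLoad (I : Shop) : ℕ := (range I.1).sup fun u => load I u

theorem load_le_maxLoad {I : Shop} {u : ℕ} (hu : u < I.1) : load I u ≤ maxLoad I :=
  le_sup (f := fun u => load I u) (mem_range.2 hu)

theorem nA_spec (I : Shop) : (∀ job ∈ I.2, job.length ≤ nA I) ∧
    ∀ n, (∀ job ∈ I.2, job.length ≤ n) → nA I ≤ n := by
  obtain ⟨h1, h2⟩ := lmax_spec (I.2.map fun job => job.length)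
  refine ⟨fun job hj => h1 _ (List.mem_map_of_mem hj), fun n hn => ?_⟩
  unfold nA
  rcases h2 with h2 | h2
  · rw [h2]
    exact Nat.zero_le _
  · obtain ⟨job, hj, h3⟩ := List.mem_map.1 h2
    rw [← h3]
    exact hn job hj

theorem sum_incA_le {I : Shop} {n p C : ℕ} (N : ℕ) (hn : ∀ job ∈ I.2, job.length ≤ n)
    (hp : ∀ job ∈ I.2, ∀ o ∈ job, o.2 ≤ p) (hC : ∀ u < I.1, load I u ≤ C) :
    ((∑ j ∈ range I.2.length, incA I N n j : ℕ) : ℤ) ≤ (N : ℤ) ^ 2 * (p * (I.1 * C)) := by
  have h2 : ∑ j ∈ range I.2.length, ∑ u ∈ range I.1, ∑ i ∈ range n,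
      opc (jobc I j) u i ^ 2 ≤ p * (I.1 * C) := by
    calc ∑ j ∈ range I.2.length, ∑ u ∈ range I.1, ∑ i ∈ range n, opc (jobc I j) u i ^ 2 ≤
        ∑ j ∈ range I.2.length, ∑ u ∈ range I.1, ∑ i ∈ range n, p * opc (jobc I j) u i := by
          refine sum_le_sum fun j _ => sum_le_sum fun u _ => sum_le_sum fun i _ => ?_
          rw [sq]
          exact Nat.mul_le_mul_right _ (opc_le (jobc_time hp j) u i)
      _ = p * ∑ u ∈ range I.1, ∑ j ∈ range I.2.length, ∑ i ∈ range n,
          opc (jobc I j) u i := by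
          rw [sum_comm, mul_sum]
          refine sum_congr rfl fun u _ => ?_
          rw [mul_sum]
          refine sum_congr rfl fun j _ => ?_
          rw [mul_sum]
      _ ≤ p * (I.1 * C) := by
          refine Nat.mul_le_mul_left _ ?_
          calc ∑ u ∈ range I.1, ∑ j ∈ range I.2.length, ∑ i ∈ range n, opc (jobc I j) u i ≤
              ∑ u ∈ range I.1, C := by
                refine sum_le_sum fun u hu => ?_
                rw [load_eq hn]
                exact hC u (mem_range.1 hu)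
            _ = I.1 * C := by rw [sum_const, card_range, smul_eq_mul]
  push_cast
  simp only [incA_eq]
  rw [← mul_sum]
  refine mul_le_mul_of_nonneg_left ?_ (by positivity)
  exact_mod_cast h2

theorem main_short : ∃ (tm : FinTM2) (iA : tm.Γ tm.k₀ ≃ Bool) (oA : tm.Γ tm.k₁ ≃ Bool)
    (P : Polynomial ℕ), ∀ (e : ℕ) (I : Shop) (n p : ℕ), 0 < e →
      (∀ j i u q, IsOp I j i u q → u < I.1 ∧ q ≤ p) → (∀ job ∈ I.2, job.length ≤ n) →
      ∃ (s : List (List (List Bool))) (K : ℕ),
        Outputs tm iA oA (codePair codeShop codeNat (I, e)) (codeSched s)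
          (P.eval (codePair codeShop codeNat (I, e)).length) ∧
        Feasible I (startOf s) ∧ EndsBy I (startOf s) K ∧
        4 * e * K ≤ (4 * e + 3) * maxLoad I + 12 * e ^ 3 * (I.1 * n * p) ∧
        maxLoad I ≤ OPT I ∧
        (12 * e ^ 3 * (I.1 * n * p) ≤ maxLoad I → e * K ≤ (e + 1) * OPT I) := by
  obtain ⟨tm, iA, oA, P, hM⟩ := exists_mach
  refine ⟨tm, iA, oA, P, fun e I n' p he hI hn' => ?_⟩
  have hm : ∀ j i u q, IsOp I j i u q → u < I.1 := fun j i u q h => (hI j i u q h).1
  have hp : ∀ job ∈ I.2, ∀ o ∈ job, o.2 ≤ p := by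
    intro job hj o ho
    obtain ⟨j, hj'⟩ := List.mem_iff_getElem?.1 hj
    obtain ⟨i, hi'⟩ := List.mem_iff_getElem?.1 ho
    exact (hI j i o.1 o.2 ⟨job, hj', hi'⟩).2
  have hlow : maxLoad I ≤ OPT I := by
    refine Finset.sup_le fun u _ => load_le_OPT I ?_ u
    exact ⟨_, _, schc_feasible hm (fun _ => 0), schc_ends hm (N := 1) hn' (fun _ => Nat.one_pos)⟩
  obtain ⟨hn, hnmin⟩ := nA_spec I
  have key : ∃ K, Feasible I (startOf (algA (I, e))) ∧ EndsBy I (startOf (algA (I, e))) K ∧
      4 * e * K ≤ (4 * e + 3) * maxLoad I + 12 * e ^ 3 * (I.1 * nA I * p) := by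
    rcases Nat.eq_zero_or_pos (nA I) with h0 | h0
    · have h1 : ∀ j i u q, ¬ IsOp I j i u q := by
        intro j i u q h
        have h2 := jobc_length hn j
        have h3 := (List.getElem?_eq_some_iff.1 (isOp_jobc.1 h)).1
        omega
      exact ⟨0, ⟨fun j i m p m' p' h _ => absurd h (h1 _ _ _ _),
        fun j i j' i' m p p' h _ _ => absurd h (h1 _ _ _ _)⟩,
        fun j i m p h => absurd h (h1 _ _ _ _), Nat.zero_le _⟩
    · have hN : 0 < 2 * e * nA I := by positivity
      set N := 2 * e * nA I with hNdef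
      set ds := delA I N (nA I) with hds
      set d : ℕ → ℕ := fun j => ds.getD j 0 with hd
      obtain ⟨h1, h2⟩ := iterA_spec hN hn I.2.length
      have hlen : ds.length = I.2.length := (iter_spec I N (nA I) I.2.length).1
      have hdN : ∀ j, d j < N := by
        intro j
        show ds.getD j 0 < N
        rw [List.getD_eq_getElem?_getD]
        rcases h : ds[j]? with _ | x
        · exact hN
        · exact h1 x (List.mem_of_getElem? h)
      have hphi : ∑ x ∈ range I.1 ×ˢ range (N + nA I),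
          devc N (jobc I) d I.2.length x.1 x.2 ^ 2 ≤ (N : ℤ) ^ 2 * (p * (I.1 * maxLoad I)) := by
        have h3 := phiA_eq I N (nA I) ds
        rw [hlen] at h3
        rw [← h3]
        refine le_trans ?_ (sum_incA_le N hn hp fun u hu => load_le_maxLoad hu)
        exact_mod_cast h2
      have hS := startc_le he hn (fun u hu => load_le_maxLoad hu) h0 d hphi
      have hst : ∀ {j i u q}, IsOp I j i u q → startOf (algA (I, e)) j i = schc I d j i :=
        fun h => startOf_algA (I, e) h
      refine ⟨startc I d (N + nA I), ⟨?_, ?_⟩, ?_, hS⟩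
      · intro j i m p m' p' h h'
        rw [hst h, hst h']
        exact (schc_feasible hm d).1 j i m p m' p' h h'
      · intro j i j' i' m p p' h h' hne
        rw [hst h, hst h']
        exact (schc_feasible hm d).2 j i j' i' m p p' h h' hne
      · intro j i m p h
        rw [hst h]
        exact schc_ends hm hn hdN j i m p h
  obtain ⟨K, hf, hK, hle⟩ := key
  have hle' : 4 * e * K ≤ (4 * e + 3) * maxLoad I + 12 * e ^ 3 * (I.1 * n' * p) := by
    refine hle.trans (Nat.add_le_add_left (Nat.mul_le_mul_left _ ?_) _)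
    exact Nat.mul_le_mul_right _ (Nat.mul_le_mul_left _ (hnmin n' hn'))
  refine ⟨algA (I, e), K, hM (I, e), hf, hK, hle', hlow, fun hbig => ?_⟩
  have h1 : 4 * (e * K) ≤ 4 * ((e + 1) * maxLoad I) := by
    calc 4 * (e * K) = 4 * e * K := by ring
      _ ≤ (4 * e + 3) * maxLoad I + 12 * e ^ 3 * (I.1 * n' * p) := hle'
      _ ≤ (4 * e + 3) * maxLoad I + maxLoad I := Nat.add_le_add_left hbig _
      _ = 4 * ((e + 1) * maxLoad I) := by ring
  have h2 : e * K ≤ (e + 1) * maxLoad I := Nat.le_of_mul_le_mul_left h1 (by norm_num)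
  exact h2.trans (Nat.mul_le_mul_left _ hlow)

end Pool.Agent.H.JS
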