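import Pool.Agent.H.MP_aeb38e_lc.SJ.Win

/-!
The schedule given by the delays, and its makespan.
-/

namespace Pool.Agent.H.JS

open Finset

/-- The total processing time of the operations that run on the machine `u`. -/
def load (I : Shop) (u : ℕ) : ℕ := ((I.2.flatten.filter fun o => decide (o.1 = u)).map Prod.snd).sum

/-- The job number `j`. -/
def jobc (I : Shop) (j : ℕ) : List (ℕ × ℕ) := I.2.getD j []

theorem isOp_jobc {I : Shop} {j i m p : ℕ} : IsOp I j i m p ↔ (jobc I j)[i]? = some (m, p) := by
  unfold IsOp jobc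
  rw [List.getD_eq_getElem?_getD]
  rcases h : I.2[j]? with _ | job
  · simp
  · simp

theorem isOp_lt {I : Shop} {j i m p : ℕ} (h : IsOp I j i m p) : j < I.2.length := by
  obtain ⟨job, h1, -⟩ := h
  exact (List.getElem?_eq_some_iff.1 h1).1

/-- The load of the window `w` of the machine `u`. -/
def ldc (I : Shop) (d : ℕ → ℕ) (u w : ℕ) : ℕ :=
  ∑ j ∈ range I.2.length, winc (jobc I j) (d j) u w

/-- The length of the window `w`. -/
def lenc (I : Shop) (d : ℕ → ℕ) (w : ℕ) : ℕ := (range I.1).sup fun u => ldc I d u w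

/-- The start of the window `w`. -/
def startc (I : Shop) (d : ℕ → ℕ) (w : ℕ) : ℕ := ∑ w' ∈ range w, lenc I d w'

/-- The schedule. -/
def schc (I : Shop) (d : ℕ → ℕ) (j i : ℕ) : ℕ :=
  startc I d (d j + i) +
    ∑ j' ∈ range j, winc (jobc I j') (d j') (((jobc I j)[i]?.map Prod.fst).getD 0) (d j + i)

theorem startc_mono (I : Shop) (d : ℕ → ℕ) {w w' : ℕ} (h : w ≤ w') :
    startc I d w ≤ startc I d w' :=
  sum_le_sum_of_subset (range_mono h)

theorem schc_eq {I : Shop} (d : ℕ → ℕ) {j i u p : ℕ} (h : (jobc I j)[i]? = some (u, p)) :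
    schc I d j i = startc I d (d j + i) +
      ∑ j' ∈ range j, winc (jobc I j') (d j') u (d j + i) := by
  unfold schc
  rw [h]
  rfl

theorem schc_add {I : Shop} (d : ℕ → ℕ) {j i u p : ℕ} (h : (jobc I j)[i]? = some (u, p)) :
    schc I d j i + p = startc I d (d j + i) +
      ∑ j' ∈ range (j + 1), winc (jobc I j') (d j') u (d j + i) := by
  rw [schc_eq d h, sum_range_succ]
  have h1 : winc (jobc I j) (d j) u (d j + i) = p := by
    unfold winc
    rw [if_pos (Nat.le_add_right _ _), Nat.add_sub_cancel_left, opc_eq h]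
  rw [h1, add_assoc]

theorem schc_end {I : Shop} (hm : ∀ j i u p, IsOp I j i u p → u < I.1) (d : ℕ → ℕ) {j i u p : ℕ}
    (h : IsOp I j i u p) : schc I d j i + p ≤ startc I d (d j + i + 1) := by
  rw [schc_add d (isOp_jobc.1 h)]
  unfold startc
  rw [sum_range_succ _ (d j + i)]
  refine Nat.add_le_add_left ?_ _
  have h1 : ∑ j' ∈ range (j + 1), winc (jobc I j') (d j') u (d j + i) ≤ ldc I d u (d j + i) :=
    sum_le_sum_of_subset (range_mono (isOp_lt h))
  refine h1.trans ?_
  exact le_sup (f := fun u => ldc I d u (d j + i)) (mem_range.2 (hm _ _ _ _ h))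

theorem schc_feasible {I : Shop} (hm : ∀ j i u p, IsOp I j i u p → u < I.1) (d : ℕ → ℕ) :
    Feasible I (schc I d) := by
  have key : ∀ j i j' i' u p p', IsOp I j i u p → IsOp I j' i' u p' → d j + i < d j' + i' →
      schc I d j i + p ≤ schc I d j' i' := by
    intro j i j' i' u p p' h h' hw
    have hw' : d j + i + 1 ≤ d j' + i' := hw
    refine (schc_end hm d h).trans ((startc_mono I d hw').trans ?_)
    exact Nat.le_add_right _ _
  have key2 : ∀ j i j' i' u p p', IsOp I j i u p → IsOp I j' i' u p' → d j + i = d j' + i' →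
      j < j' → schc I d j i + p ≤ schc I d j' i' := by
    intro j i j' i' u p p' h h' hw hj
    rw [schc_add d (isOp_jobc.1 h), schc_eq d (isOp_jobc.1 h'), hw]
    exact Nat.add_le_add_left (sum_le_sum_of_subset (range_mono hj)) _
  refine ⟨?_, ?_⟩
  · intro j i m p m' p' h h'
    refine (schc_end hm d h).trans ?_
    unfold schc
    rw [← add_assoc]
    exact Nat.le_add_right _ _
  · intro j i j' i' m p p' h h' hne
    rcases lt_trichotomy (d j + i) (d j' + i') with h1 | h1 | h1
    · exact Or.inl (key _ _ _ _ _ _ _ h h' h1)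
    · rcases lt_trichotomy j j' with h2 | h2 | h2
      · exact Or.inl (key2 _ _ _ _ _ _ _ h h' h1 h2)
      · subst h2
        exact absurd (by rw [Nat.add_left_cancel h1]) hne
      · exact Or.inr (key2 _ _ _ _ _ _ _ h' h h1.symm h2)
    · exact Or.inr (key _ _ _ _ _ _ _ h' h h1)

theorem schc_ends {I : Shop} (hm : ∀ j i u p, IsOp I j i u p → u < I.1) {n N : ℕ} {d : ℕ → ℕ}
    (hn : ∀ job ∈ I.2, job.length ≤ n) (hd : ∀ j, d j < N) :
    EndsBy I (schc I d) (startc I d (N + n)) := by
  intro j i m p h
  refine (schc_end hm d h).trans (startc_mono I d ?_)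
  obtain ⟨job, h1, h2⟩ := h
  have h3 := hn job (List.mem_of_getElem? h1)
  have h4 := (List.getElem?_eq_some_iff.1 h2).1
  have h5 := hd j
  omega

theorem opc_sum {n : ℕ} (u : ℕ) : ∀ (job : List (ℕ × ℕ)) (_ : job.length ≤ n),
    ∑ i ∈ range n, opc job u i = ((job.filter fun o => decide (o.1 = u)).map Prod.snd).sum := by
  induction n with
  | zero =>
    intro job h
    have : job = [] := List.eq_nil_of_length_eq_zero (by omega)
    subst this
    rfl
  | succ n ih =>
    intro job h
    rcases job with _ | ⟨o, l⟩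
    · refine sum_eq_zero fun i _ => opc_zero (by simp)
    · rw [sum_range_succ']
      have h1 : ∀ i, opc (o :: l) u (i + 1) = opc l u i := fun i => rfl
      have h2 : opc (o :: l) u 0 = if o.1 = u then o.2 else 0 := rfl
      simp only [h1, h2]
      rw [ih l (by simpa using h)]
      by_cases h3 : o.1 = u
      · simp [h3, add_comm]
      · simp [h3]

theorem sum_jobs {α : Type*} (F : List α → ℕ) : ∀ (l : List (List α)),
    ∑ j ∈ range l.length, F (l.getD j []) = (l.map F).sum := by
  intro l
  induction l with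
  | nil => rfl
  | cons a l ih =>
    rw [List.length_cons, sum_range_succ', List.map_cons, List.sum_cons, ← ih, add_comm]
    rfl

theorem load_eq {I : Shop} {n : ℕ} (hn : ∀ job ∈ I.2, job.length ≤ n) (u : ℕ) :
    ∑ j ∈ range I.2.length, ∑ i ∈ range n, opc (jobc I j) u i = load I u := by
  have h1 : ∀ l : List (List (ℕ × ℕ)), ((l.flatten.filter fun o => decide (o.1 = u)).map
      Prod.snd).sum = (l.map fun job => ((job.filter fun o => decide (o.1 = u)).map
        Prod.snd).sum).sum := by
    intro l
    induction l with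
    | nil => rfl
    | cons a l ih =>
      rw [List.flatten_cons, List.filter_append, List.map_append, List.sum_append, ih,
        List.map_cons, List.sum_cons]
  unfold load
  rw [h1, ← sum_jobs]
  refine sum_congr rfl fun j _ => ?_
  refine opc_sum u _ ?_
  unfold jobc
  rw [List.getD_eq_getElem?_getD]
  rcases h : I.2[j]? with _ | job
  · simp
  · exact hn job (List.mem_of_getElem? h)

end Pool.Agent.H.JS
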