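import Pool.Agent.H.MP_aeb38e_lc.Defs

/-!
Windows: the jobs get delays such that the loads of the windows are near their means.
-/

namespace Pool.Agent.H.JS

open Finset

/-- The processing time of the operation `i` of the job on the machine `u` (zero if it runs on
another machine). -/
def opc (job : List (ℕ × ℕ)) (u i : ℕ) : ℕ :=
  ((job[i]?).map fun o => if o.1 = u then o.2 else 0).getD 0

/-- The time of the job with delay `d` on the machine `u` in the window `w`. -/
def winc (job : List (ℕ × ℕ)) (d u w : ℕ) : ℕ := if d ≤ w then opc job u (w - d) else 0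

/-- The sum of `winc` over the delays `d < N`. -/
def meanc (N : ℕ) (job : List (ℕ × ℕ)) (u w : ℕ) : ℕ := ∑ d ∈ range N, winc job d u w

theorem opc_zero {job : List (ℕ × ℕ)} {u i : ℕ} (h : job.length ≤ i) : opc job u i = 0 := by
  unfold opc
  rw [List.getElem?_eq_none h]
  rfl

theorem opc_eq {job : List (ℕ × ℕ)} {u i p : ℕ} (h : job[i]? = some (u, p)) : opc job u i = p := by
  unfold opc
  rw [h]
  simp

theorem opc_le {job : List (ℕ × ℕ)} {p : ℕ} (hp : ∀ o ∈ job, o.2 ≤ p) (u i : ℕ) :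
    opc job u i ≤ p := by
  unfold opc
  rcases h : job[i]? with _ | o
  · simp
  · have h1 := hp o (List.mem_of_getElem? h)
    simp only [Option.map_some, Option.getD_some]
    split_ifs
    · exact h1
    · exact Nat.zero_le _

/-- The sum of the squares over the windows. -/
theorem sum_winc_sq {job : List (ℕ × ℕ)} {n : ℕ} (hn : job.length ≤ n) (N d u : ℕ) (hd : d < N) :
    ∑ w ∈ range (N + n), winc job d u w ^ 2 ≤ ∑ i ∈ range n, opc job u i ^ 2 := by
  have e1 : N + n = d + (N - d + n) := by omega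
  rw [e1, sum_range_add]
  have h0 : ∑ w ∈ range d, winc job d u w ^ 2 = 0 := by
    refine sum_eq_zero fun w hw => ?_
    unfold winc
    rw [if_neg (by have := mem_range.1 hw; omega)]
    rfl
  have h1 : ∀ i, winc job d u (d + i) = opc job u i := fun i => by
    unfold winc
    rw [if_pos (by omega), Nat.add_sub_cancel_left]
  rw [h0, zero_add]
  simp only [h1]
  refine sum_le_sum_of_ne_zero fun i _ h => ?_
  rw [mem_range]
  by_contra hc
  exact h (by rw [opc_zero (by omega)]; rfl)

/-- The mean is at most the total. -/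
theorem meanc_le {job : List (ℕ × ℕ)} {n : ℕ} (hn : job.length ≤ n) (N u w : ℕ) :
    meanc N job u w ≤ ∑ i ∈ range n, opc job u i := by
  unfold meanc
  have h1 : ∑ d ∈ range N, winc job d u w ≤ ∑ d ∈ range (w + 1), opc job u (w - d) := by
    have h2 : ∑ d ∈ range N, winc job d u w ≤ ∑ d ∈ range (w + 1), winc job d u w := by
      refine sum_le_sum_of_ne_zero fun d _ h => ?_
      rw [mem_range]
      by_contra hc
      exact h (by unfold winc; rw [if_neg (by omega)])
    refine h2.trans (sum_le_sum fun d hd => ?_)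
    unfold winc
    rw [if_pos (by have := mem_range.1 hd; omega)]
  refine h1.trans ?_
  have h3 := sum_range_reflect (fun i => opc job u i) (w + 1)
  simp only [Nat.add_sub_cancel] at h3
  rw [h3]
  refine sum_le_sum_of_ne_zero fun i _ h => ?_
  rw [mem_range]
  by_contra hc
  exact h (opc_zero (by omega))

/-- Averaging over the delays. -/
theorem averaging {ι : Type*} (P : Finset ι) (N : ℕ) (hN : 0 < N) (A : ι → ℤ) (X : ℕ → ι → ℤ)
    (Q : ℤ) (hQ : ∀ d < N, ∑ x ∈ P, X d x ^ 2 ≤ Q) :
    ∃ d < N, ∑ x ∈ P, (A x + (N * X d x - ∑ d' ∈ range N, X d' x)) ^ 2 ≤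
      ∑ x ∈ P, A x ^ 2 + (N : ℤ) ^ 2 * Q := by
  by_contra hc
  push Not at hc
  have hN' : (0 : ℤ) < N := by exact_mod_cast hN
  have h1 : ∑ d ∈ range N, (∑ x ∈ P, A x ^ 2 + (N : ℤ) ^ 2 * Q) <
      ∑ d ∈ range N, ∑ x ∈ P, (A x + (N * X d x - ∑ d' ∈ range N, X d' x)) ^ 2 := by
    refine sum_lt_sum_of_nonempty ⟨0, mem_range.2 hN⟩ fun d hd => hc d (mem_range.1 hd)
  rw [sum_const, card_range, nsmul_eq_mul] at h1
  have h2 : ∑ d ∈ range N, ∑ x ∈ P, (A x + (N * X d x - ∑ d' ∈ range N, X d' x)) ^ 2 =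
      ∑ x ∈ P, (N * A x ^ 2 + ((N : ℤ) ^ 2 * ∑ d ∈ range N, X d x ^ 2 -
        N * (∑ d ∈ range N, X d x) ^ 2)) := by
    rw [sum_comm]
    refine sum_congr rfl fun x _ => ?_
    set M := ∑ d' ∈ range N, X d' x with hM
    have h3 : ∀ d, (A x + (N * X d x - M)) ^ 2 =
        (A x - M) ^ 2 + (2 * (A x - M) * N) * X d x + (N : ℤ) ^ 2 * X d x ^ 2 := fun d => by ring
    simp only [h3]
    rw [sum_add_distrib, sum_add_distrib, sum_const, card_range, nsmul_eq_mul, ← mul_sum,
      ← mul_sum, ← hM]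
    ring
  rw [h2, sum_add_distrib, sum_sub_distrib, ← mul_sum, ← mul_sum] at h1
  have h4 : ∑ x ∈ P, ∑ d ∈ range N, X d x ^ 2 ≤ N * Q := by
    rw [sum_comm]
    calc ∑ d ∈ range N, ∑ x ∈ P, X d x ^ 2 ≤ ∑ d ∈ range N, Q :=
          sum_le_sum fun d hd => hQ d (mem_range.1 hd)
      _ = N * Q := by rw [sum_const, card_range, nsmul_eq_mul]
  have h5 : 0 ≤ ∑ x ∈ P, (N : ℤ) * (∑ d ∈ range N, X d x) ^ 2 :=
    sum_nonneg fun x _ => by positivity
  have h6 : (N : ℤ) ^ 2 * ∑ x ∈ P, ∑ d ∈ range N, X d x ^ 2 ≤ (N : ℤ) ^ 2 * (N * Q) :=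
    mul_le_mul_of_nonneg_left h4 (by positivity)
  have h7 : (N : ℤ) * (∑ x ∈ P, A x ^ 2 + (N : ℤ) ^ 2 * Q) =
      N * ∑ x ∈ P, A x ^ 2 + (N : ℤ) ^ 2 * (N * Q) := by ring
  rw [h7] at h1
  linarith

/-- The deviation of the load of the window `w` of the machine `u` from its mean. -/
def devc (N : ℕ) (job : ℕ → List (ℕ × ℕ)) (d : ℕ → ℕ) (k u w : ℕ) : ℤ :=
  ∑ j ∈ range k, ((N : ℤ) * winc (job j) (d j) u w - meanc N (job j) u w)

/-- There are good delays. -/
theorem exists_delays (job : ℕ → List (ℕ × ℕ)) (N n m : ℕ) (hN : 0 < N)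
    (hn : ∀ j, (job j).length ≤ n) (k : ℕ) :
    ∃ d : ℕ → ℕ, (∀ j, d j < N) ∧
      ∑ x ∈ range m ×ˢ range (N + n), devc N job d k x.1 x.2 ^ 2 ≤
        (N : ℤ) ^ 2 * ∑ j ∈ range k, ∑ u ∈ range m, ∑ i ∈ range n, (opc (job j) u i : ℤ) ^ 2 := by
  induction k with
  | zero => exact ⟨fun _ => 0, fun _ => hN, by simp [devc]⟩
  | succ k ih =>
    obtain ⟨d, hd, h⟩ := ih
    obtain ⟨d0, hd0, h0⟩ := averaging (range m ×ˢ range (N + n)) N hN
      (fun x => devc N job d k x.1 x.2) (fun d x => (winc (job k) d x.1 x.2 : ℤ))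
      (∑ u ∈ range m, ∑ i ∈ range n, (opc (job k) u i : ℤ) ^ 2)
      (by
        intro d' hd'
        rw [sum_product]
        refine sum_le_sum fun u _ => ?_
        exact_mod_cast sum_winc_sq (hn k) N d' u hd')
    refine ⟨fun j => if j = k then d0 else d j, fun j => ?_, ?_⟩
    · dsimp only
      split_ifs
      · exact hd0
      · exact hd j
    · have h1 : ∀ u w, devc N job (fun j => if j = k then d0 else d j) (k + 1) u w =
          devc N job d k u w + ((N : ℤ) * winc (job k) d0 u w -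
            ∑ d' ∈ range N, (winc (job k) d' u w : ℤ)) := by
        intro u w
        unfold devc
        rw [sum_range_succ]
        congr 1
        · refine sum_congr rfl fun j hj => ?_
          have hjk : j ≠ k := (mem_range.1 hj).ne
          simp only [if_neg hjk]
        · simp only [if_true]
          unfold meanc
          push_cast
          rfl
      simp only [h1]
      refine h0.trans ?_
      rw [sum_range_succ, mul_add]
      exact add_le_add_left h _

end Pool.Agent.H.JS
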